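import Pool.Agent.Q101.CqgE

/-!
MP_d7aa4b_an, Q1 and Q2: every Cesaro quasi-greedy basis, and every de la Vallee-Poussin
quasi-greedy basis, of a Banach space is quasi-greedy.
-/

namespace Pool.Agent.Results.MP_d7aa4b_an.CesaroGreedy

open Filter Topology Q101.Cqg

variable {𝕜 X : Type*} [RCLike 𝕜] [NormedAddCommGroup X] [NormedSpace 𝕜 X]

/-- `(e, es)` is quasi-greedy: all greedy sums are bounded by `C ‖x‖`. -/
def QuasiGreedy (e : ℕ → X) (es : ℕ → X →L[𝕜] 𝕜) : Prop :=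
  ∃ C : ℝ, ∀ (x : X) (k : ℕ → ℕ), IsGreedy es x k → ∀ m, ‖G e es k x m‖ ≤ C * ‖x‖

/-- `(e, es)` is Cesaro quasi-greedy: `C_m^O(x) → x` for all `x` and all greedy orderings. -/
def CesaroQuasiGreedy (e : ℕ → X) (es : ℕ → X →L[𝕜] 𝕜) : Prop :=
  ∀ (x : X) (k : ℕ → ℕ), IsGreedy es x k → Tendsto (fun m => Ces e es k x m) atTop (𝓝 x)

/-- `(e, es)` is de la Vallee-Poussin quasi-greedy: `2 C_{2m}^O(x) - C_m^O(x) → x` for all `x`
and all greedy orderings. -/
def VPQuasiGreedy (e : ℕ → X) (es : ℕ → X →L[𝕜] 𝕜) : Prop :=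
  ∀ (x : X) (k : ℕ → ℕ), IsGreedy es x k →
    Tendsto (fun m => (2 : 𝕜) • Ces e es k x (2 * m) - Ces e es k x m) atTop (𝓝 x)

/-- Both answers: CQG implies quasi-greedy and VPQG implies quasi-greedy, for every fundamental
biorthogonal system (bounded, with bounded functionals) of a real or complex Banach space. -/
theorem result [CompleteSpace X] (e : ℕ → X) (es : ℕ → X →L[𝕜] 𝕜) (hb : IsBasis e es) :
    (CesaroQuasiGreedy e es → QuasiGreedy e es) ∧ (VPQuasiGreedy e es → QuasiGreedy e es) := by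
  have bdd_of : ∀ (u : ℕ → X) (x : X), Tendsto u atTop (𝓝 x) → ∃ M : ℝ, ∀ m, ‖u m‖ ≤ M := by
    intro u x h
    obtain ⟨M, hM⟩ := (h.norm.bddAbove_range)
    exact ⟨M, fun m => hM ⟨m, rfl⟩⟩
  constructor
  · intro h
    exact main hb (fun x k hk => bdd_of _ _ (h x k hk))
  · intro h
    refine main hb (fun x k hk => ?_)
    obtain ⟨B, hB⟩ := bdd_of _ _ (h x k hk)
    exact ces_of_vp hb x k B hB

end Pool.Agent.Results.MP_d7aa4b_an.CesaroGreedy
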